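import Mathlib
import Pool.Agent.Q76.LurImage

/-!
# MP_4648ce_an, Q1: the dimensions of the asymptotic sets of the Lüroth map fill `[0, 1/2]`

`IsLurothMap L` says that `L 0 = 0` and `L x = n (n + 1) x - n` on `(1/(n+1), 1/n]` for all
`n ≥ 1`, that is, `L` is the Lüroth map on `[0, 1]` (its values outside `[0, 1]` play no role).
-/

namespace Pool.Agent.Results.MP_4648ce_an.AsymptoticDimensionImage

open Set Filter Topology
open scoped ENNReal

/-- `L` is the Lüroth map on `[0, 1]`. -/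
def IsLurothMap (L : ℝ → ℝ) : Prop :=
  L 0 = 0 ∧ ∀ n : ℕ, 1 ≤ n → ∀ x ∈ Ioc (1 / ((n : ℝ) + 1)) (1 / (n : ℝ)), L x = n * (n + 1) * x - n

/-- The asymptotic set of `x`. -/
def AS (L : ℝ → ℝ) (x : ℝ) : Set ℝ :=
  {y | y ∈ Icc (0 : ℝ) 1 ∧ Tendsto (fun n => |L^[n] x - L^[n] y|) atTop (𝓝 0)}

/-- The Lüroth map. -/
noncomputable def luroth (x : ℝ) : ℝ :=
  if x = 0 then 0 else (⌊1 / x⌋ : ℝ) * (⌊1 / x⌋ + 1) * x - ⌊1 / x⌋

/-- The concrete map satisfies the defining property. -/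
lemma isLurothMap_luroth : IsLurothMap luroth := by
  refine ⟨by simp [luroth], fun n hn x hx => ?_⟩
  have hn0 : (0 : ℝ) < n := by exact_mod_cast hn
  have hx0 : 0 < x := lt_trans (by positivity) hx.1
  have h1 : ⌊1 / x⌋ = (n : ℤ) := by
    rw [Int.floor_eq_iff]
    push_cast
    constructor
    · rw [le_one_div hn0 hx0]
      exact hx.2
    · rw [one_div_lt hx0 (by positivity)]
      exact hx.1
  unfold luroth
  rw [if_neg hx0.ne', h1]
  push_cast
  ring

/-- **The image of `x ↦ dim_H AS(x)` on `[0, 1]` is exactly `[0, 1/2]`.** -/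
theorem result (L : ℝ → ℝ) (hL : IsLurothMap L) :
    (fun x => dimH (AS L x)) '' Icc (0 : ℝ) 1 = Icc (0 : ℝ≥0∞) (ENNReal.ofReal (1 / 2)) :=
  Q76.Lur.image_dimH (T := L) fun m hm x hx => hL.2 m hm x ⟨hx.1, hx.2.le⟩

end Pool.Agent.Results.MP_4648ce_an.AsymptoticDimensionImage
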